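import Pool.Agent.Q21.NC.Periodic

/-!
Every reversible number-conserving cellular automaton on `ℤ^d` with states `0, 1, 2` and the von Neumann
neighbourhood is the identity or a unit shift.
-/

namespace Pool.Agent.Results.MP_944d6d_mp.AllDimensions

open Function Set Pool.Agent.Q21.NC

theorem result (d : ℕ) (f : (VN d → Fin 3) → Fin 3) (hcons : ConservesPeriodic f ∨ ConservesFinite f)
    (hrev : Bijective (globalMap f)) : ∃ u ∈ VN d, ∀ x v, globalMap f x v = x (v + u) := by
  have hf : ConservesFinite f := hcons.elim finite_of_periodic id
  exact (good hf hrev.1).main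

end Pool.Agent.Results.MP_944d6d_mp.AllDimensions
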